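import Pool.Agent.MP_5f72fe_nt.H3.SpecA

/-! Transformation laws and non-vanishing of the derived series. -/

namespace Pool.Agent.MP_5f72fe_nt.H50

open Complex Filter Topology Pool.Agent.MP_5f72fe_nt.H3
open scoped Real MatrixGroups PowerSeries UpperHalfPlane

theorem im_inv_pos {τ : ℂ} (h : 0 < τ.im) : 0 < (-1 / τ).im := by
  have h0 : τ ≠ 0 := by
    rintro rfl
    simp at h
  have hn : 0 < Complex.normSq τ := Complex.normSq_pos.mpr h0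
  have : (-1 / τ).im = τ.im / Complex.normSq τ := by
    rw [Complex.div_im]
    simp
    ring
  rw [this]
  positivity

theorem evalAll (hS : RowSER) (hB : RowBASE) :
    Sm (cz E8) ∧ Sm (cz D6) ∧ ∀ τ : ℂ, 0 < τ.im →
      sr (Hm 0) τ = sr (Tm 0) τ * (sr (Tm 0) τ ^ 4 - 5 * sr (Tm 1) τ ^ 4) ∧
      sr (Hm 1) τ = sr (Tm 1) τ * (sr (Tm 1) τ ^ 4 - 5 * sr (Tm 0) τ ^ 4) ∧
      sr E8 τ = sr Kk τ * (sr Aa τ ^ 3 - 27 * sr Kk τ ^ 3) ∧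
      sr D6 τ = sr (Tm 0) τ * sr (Tm 1) τ * (sr (Tm 0) τ ^ 4 - sr (Tm 1) τ ^ 4) := by
  obtain ⟨R, hR, hφ⟩ := hS.ring
  obtain ⟨hT, hA, hK, -⟩ := hB.sm
  let t0 : R := ⟨Tm 0, (hR _).2 (hT 0 (by norm_num))⟩
  let t1 : R := ⟨Tm 1, (hR _).2 (hT 1 (by norm_num))⟩
  let a : R := ⟨Aa, (hR _).2 hA⟩
  let k : R := ⟨Kk, (hR _).2 hK⟩
  have e0 : ((t0 * (t0 ^ 4 - 5 * t1 ^ 4) : R) : ℤ⟦X⟧) = Hm 0 := rfl
  have e1 : ((t1 * (t1 ^ 4 - 5 * t0 ^ 4) : R) : ℤ⟦X⟧) = Hm 1 := rfl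
  have e2 : ((k * (a ^ 3 - 27 * k ^ 3) : R) : ℤ⟦X⟧) = E8 := rfl
  have e3 : ((t0 * t1 * (t0 ^ 4 - t1 ^ 4) : R) : ℤ⟦X⟧) = D6 := rfl
  refine ⟨?_, ?_, fun τ hτ => ?_⟩
  · rw [← e2]
    exact (hR _).1 (Subtype.prop _)
  · rw [← e3]
    exact (hR _).1 (Subtype.prop _)
  · obtain ⟨φ, h⟩ := hφ τ hτ
    have f0 : sr (Tm 0) τ = φ t0 := (h t0).symm
    have f1 : sr (Tm 1) τ = φ t1 := (h t1).symm
    have fa : sr Aa τ = φ a := (h a).symm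
    have fk : sr Kk τ = φ k := (h k).symm
    rw [← e0, ← e1, ← e2, ← e3, ← h, ← h, ← h, ← h, f0, f1, fa, fk]
    simp only [map_mul, map_sub, map_pow, map_ofNat, and_self]

theorem neBot_im : (comap Complex.im atTop).NeBot :=
  Filter.NeBot.comap_of_surj inferInstance fun y => ⟨⟨0, y⟩, rfl⟩

theorem ne_of_twelve (hS : RowSER) (F : ℂ → ℂ) (l : ℂ) (hl : l ≠ 0) (hE : Ex 1 F) (hL : Ld 1 F l)
    (law : ∀ τ : ℂ, 0 < τ.im → F (-1 / τ) = τ ^ (12 : ℤ) * F τ) (τ : ℂ) (hτ : 0 < τ.im) :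
    F τ ≠ 0 := by
  obtain ⟨f, hf⟩ := hS.levC 12 F hE law
  obtain ⟨c, hc⟩ := CuspForm.exists_smul_discriminant_of_weight_eq_twelve f
  have key : ∀ z : ℍ, F z = c * ModularForm.discriminant z := by
    intro z
    rw [← hf, ← hc]
    rfl
  have hc0 : c ≠ 0 := by
    rintro rfl
    have := neBot_im
    have hz : (fun τ : ℂ => F τ * E (-(((1 : ℝ) : ℂ) * τ))) =ᶠ[comap Complex.im atTop]
        fun _ => 0 := by
      have : ∀ᶠ τ : ℂ in comap Complex.im atTop, 0 < τ.im :=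
        tendsto_comap.eventually (eventually_gt_atTop 0)
      filter_upwards [this] with σ hσ
      have := key ⟨σ, hσ⟩
      simp only [zero_mul] at this
      have h2 : F σ = 0 := this
      rw [h2, zero_mul]
    exact hl (tendsto_nhds_unique hL (tendsto_const_nhds.congr' hz.symm))
  have := key ⟨τ, hτ⟩
  have h2 : F τ = c * ModularForm.discriminant ⟨τ, hτ⟩ := this
  rw [h2]
  exact mul_ne_zero hc0 (ModularForm.discriminant_ne_zero _)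

theorem supC {M r : ℕ} {F : ℤ⟦X⟧} (h : Sup M r F) (n : ℕ) (hn : cz F n ≠ 0) :
    ∃ t, n = r + M * t := by
  refine h n fun h0 => hn ?_
  simp [cz, h0]

theorem rowNZ : RowNZOf := by
  intro hS hJ hI hB
  obtain ⟨smE, smD, ev⟩ := evalAll hS hB
  have r2 : (((√2 : ℝ) : ℂ)) ^ 2 = 2 := by
    rw [← Complex.ofReal_pow, Real.sq_sqrt (by norm_num)]
    norm_num
  have r3 : (((√3 : ℝ) : ℂ)) ^ 2 = 3 := by
    rw [← Complex.ofReal_pow, Real.sq_sqrt (by norm_num)]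
    norm_num
  have i2 : (((√2 : ℝ) : ℂ))⁻¹ ^ 2 = 1 / 2 := by
    rw [inv_pow, r2]
    norm_num
  have i3 : (((√3 : ℝ) : ℂ))⁻¹ ^ 2 = 1 / 3 := by
    rw [inv_pow, r3]
    norm_num
  have lawE : ∀ τ : ℂ, 0 < τ.im → sr E8 (-1 / τ) = τ ^ 4 * sr E8 τ := by
    intro τ hτ
    rw [(ev _ (im_inv_pos hτ)).2.2.1, (ev _ hτ).2.2.1, hB.lawA τ hτ, hB.lawK τ hτ]
    simp only [div_eq_mul_inv, mul_inv]
    generalize (((√3 : ℝ) : ℂ))⁻¹ = s at i3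
    generalize sr Aa τ = A
    generalize sr Kk τ = K
    have h4 : (I * s) ^ 4 = 1 / 9 := by
      rw [mul_pow, I_pow_four, show s ^ 4 = (s ^ 2) ^ 2 by ring, i3]
      norm_num
    linear_combination (τ ^ 4 * 9 * (K * (A ^ 3 - 27 * K ^ 3))) * h4
  have lawD : ∀ τ : ℂ, 0 < τ.im → sr D6 (-1 / τ) = Jh τ ^ 6 * sr D6 τ := by
    intro τ hτ
    rw [(ev _ (im_inv_pos hτ)).2.2.2, (ev _ hτ).2.2.2, hB.lawT τ hτ 0 (by norm_num),
      hB.lawT τ hτ 1 (by norm_num)]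
    simp only [div_eq_mul_inv]
    generalize (((√2 : ℝ) : ℂ))⁻¹ = s at i2
    generalize sr (Tm 0) τ = A
    generalize sr (Tm 1) τ = B
    generalize Jh τ = j
    have h6 : s ^ 6 = 1 / 8 := by
      rw [show s ^ 6 = (s ^ 2) ^ 3 by ring, i2]
      norm_num
    linear_combination (j ^ 6 * 8 * (A * B * (A ^ 4 - B ^ 4))) * h6
  have neE : ∀ τ : ℂ, 0 < τ.im → sr E8 τ ≠ 0 := by
    intro τ hτ
    obtain ⟨h1, h2⟩ := hS.ex 12 4 (cz E8) (by norm_num) smE (supC hI.supE.1)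
    have h3 := hS.exMul _ _ _ _ (hS.exMul _ _ _ _ h1 h1) h1
    have h4 := hS.ldMul _ _ _ _ _ _ (hS.ldMul _ _ _ _ _ _ h2 h2) h2
    have e : ((4 : ℕ) : ℝ) / (12 : ℕ) + ((4 : ℕ) : ℝ) / (12 : ℕ) + ((4 : ℕ) : ℝ) / (12 : ℕ) = 1 := by
      norm_num
    rw [e] at h3 h4
    have hl : cz E8 4 * cz E8 4 * cz E8 4 ≠ 0 := by
      simp [cz, hI.supE.2]
    have := ne_of_twelve hS _ _ hl h3 h4 (fun σ hσ => by
      have := lawE σ hσ
      unfold sr at this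
      rw [this, show (12 : ℤ) = ((12 : ℕ) : ℤ) from rfl, zpow_natCast]
      ring) τ hτ
    exact fun h0 => this (mul_eq_zero_of_right _ h0)
  have neD : ∀ τ : ℂ, 0 < τ.im → sr D6 τ ≠ 0 := by
    intro τ hτ
    obtain ⟨h1, h2⟩ := hS.ex 12 3 (cz D6) (by norm_num) smD (supC hI.supD.1)
    have h3 := hS.exMul _ _ _ _ (hS.exMul _ _ _ _ (hS.exMul _ _ _ _ h1 h1) h1) h1
    have h4 := hS.ldMul _ _ _ _ _ _ (hS.ldMul _ _ _ _ _ _ (hS.ldMul _ _ _ _ _ _ h2 h2) h2) h2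
    have e : ((3 : ℕ) : ℝ) / (12 : ℕ) + ((3 : ℕ) : ℝ) / (12 : ℕ) + ((3 : ℕ) : ℝ) / (12 : ℕ) +
        ((3 : ℕ) : ℝ) / (12 : ℕ) = 1 := by
      norm_num
    rw [e] at h3 h4
    have hl : cz D6 3 * cz D6 3 * cz D6 3 * cz D6 3 ≠ 0 := by
      simp [cz, hI.supD.2]
    have := ne_of_twelve hS _ _ hl h3 h4 (fun σ hσ => by
      have := lawD σ hσ
      unfold sr at this
      rw [this, show (12 : ℤ) = ((12 : ℕ) : ℤ) from rfl, zpow_natCast]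
      have h24 : Jh σ ^ 24 = σ ^ 12 := by
        rw [show Jh σ ^ 24 = (Jh σ ^ 2) ^ 12 by ring, hJ.sq, mul_pow,
          show (-I) ^ 12 = (I ^ 4) ^ 3 by ring, I_pow_four]
        ring
      linear_combination (ser 12 (cz D6) σ ^ 4) * h24) τ hτ
    exact fun h0 => this (mul_eq_zero_of_right _ h0)
  refine ⟨?_, lawE, lawD, ?_, neE, ?_, neD⟩
  · intro τ hτ μ hμ
    have h5 : (((√2 : ℝ) : ℂ))⁻¹ ^ 4 = 1 / 4 := by
      rw [show (((√2 : ℝ) : ℂ))⁻¹ ^ 4 = ((((√2 : ℝ) : ℂ))⁻¹ ^ 2) ^ 2 by ring, i2]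
      norm_num
    obtain rfl | rfl : μ = 0 ∨ μ = 1 := by omega
    · rw [(ev _ (im_inv_pos hτ)).1, (ev _ hτ).1, (ev _ hτ).2.1, hB.lawT τ hτ 0 (by norm_num),
        hB.lawT τ hτ 1 (by norm_num)]
      simp only [div_eq_mul_inv]
      generalize (((√2 : ℝ) : ℂ))⁻¹ = s at h5
      generalize sr (Tm 0) τ = A
      generalize sr (Tm 1) τ = B
      generalize Jh τ = j
      linear_combination (j ^ 5 * s * (A + B) * ((A + B) ^ 4 - 5 * (A - B) ^ 4)) * h5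
    · rw [(ev _ (im_inv_pos hτ)).2.1, (ev _ hτ).1, (ev _ hτ).2.1, hB.lawT τ hτ 0 (by norm_num),
        hB.lawT τ hτ 1 (by norm_num)]
      simp only [div_eq_mul_inv]
      generalize (((√2 : ℝ) : ℂ))⁻¹ = s at h5
      generalize sr (Tm 0) τ = A
      generalize sr (Tm 1) τ = B
      generalize Jh τ = j
      linear_combination (j ^ 5 * s * (A - B) * ((A - B) ^ 4 - 5 * (A + B) ^ 4)) * h5
  · intro τ hτ
    rw [(ev _ hτ).1, (ev _ hτ).2.1, (ev _ hτ).2.2.2]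
    ring
  · intro τ hτ
    have h := neE τ hτ
    rw [(ev _ hτ).2.2.1] at h
    refine ⟨left_ne_zero_of_mul h, fun h0 => h ?_⟩
    linear_combination
      (sr Kk τ * (sr Aa τ ^ 2 + 3 * sr Aa τ * sr Kk τ + 9 * sr Kk τ ^ 2)) * h0

end Pool.Agent.MP_5f72fe_nt.H50
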