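import Pool.Agent.MP_5f72fe_nt.H25.SpecD
import Pool.Agent.MP_5f72fe_nt.H26.EI2
import Pool.Agent.MP_5f72fe_nt.H28.STAB

/-! Stability of the admissible integral functions and orbits of the rotation of order three. -/

namespace Pool.Agent.MP_5f72fe_nt.H50

open Pool.Agent.MP_5f72fe_nt.H3 Pool.Agent.MP_5f72fe_nt.H25 Pool.Agent.MP_5f72fe_nt.H26
  Pool.Agent.MP_5f72fe_nt.H28

theorem chi3_sq (a : ℤ) : chi3 a ^ 2 = if 3 ∣ a then 0 else 1 := by
  have h : a % 3 = 0 ∨ a % 3 = 1 ∨ a % 3 = 2 := by omega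
  unfold chi3
  rw [Int.bmod_def]
  rcases h with h | h | h
  · rw [if_pos (show (3 : ℤ) ∣ a by omega)]
    simp [h]
  · rw [if_neg (show ¬ (3 : ℤ) ∣ a by omega)]
    simp [h]
  · rw [if_neg (show ¬ (3 : ℤ) ∣ a by omega)]
    simp [h]

theorem ep_zero (v : V) : ep v = 0 ↔ (3 ∣ v.2.1 → (3 ∣ v.1 ↔ 3 ∣ v.2.2)) := by
  unfold ep
  rw [chi3_sq, chi3_sq]
  by_cases h1 : 3 ∣ v.2.1 <;> by_cases h2 : 3 ∣ v.1 <;> by_cases h3 : 3 ∣ v.2.2 <;>
    simp [h1, h2, h3]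

theorem ez_sg (v : V) (h : ep v = 0) : ep (sg v) = 0 := by
  rw [ep_zero] at h ⊢
  simp only [sg]
  omega

theorem ez_sg' (v : V) (h : ep v = 0) : ep (sg' v) = 0 := by
  rw [ep_zero] at h ⊢
  simp only [sg']
  omega

theorem ez_rt (v : V) (h : ep v = 0) : ep (rt v) = 0 := by
  rw [ep_zero] at h ⊢
  simp only [rt]
  omega

theorem ez_p7 (v : V) (h : ep v = 0) : ep (p7 1 v) = 0 ∧ ep (p7 (-1) v) = 0 := by
  rw [ep_zero] at h
  rw [ep_zero, ep_zero]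
  simp only [p7]
  omega

theorem ez_q7 (v : V) (h : ep v = 0) : ep (q7 1 v) = 0 ∧ ep (q7 (-1) v) = 0 := by
  rw [ep_zero] at h
  rw [ep_zero, ep_zero]
  simp only [q7]
  omega

theorem rowSTABP : RowSTABP := by
  intro φ h
  have hA : ∀ v, φ (fA v) = φ v := fun v => h.sgnA v.1 v.2.1 v.2.2
  have hB : ∀ v, φ (fB v) = φ v := fun v => h.sgnB v.1 v.2.1 v.2.2
  obtain ⟨N, hN⟩ := h.per
  have p : ∀ {g : V → V}, Lin g → ∀ v w : V, 3 ∣ φ (g (v + (3 ^ N : ℤ) • w)) - φ (g v) :=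
    fun G v w => by
      rw [G.add, G.smul]
      exact hN _ _
  have o : ∀ {g : V → V}, Lin g → ∀ (l : ℤ) (v : V), ¬ 3 ∣ l → φ (g (l • v)) = φ (g v) :=
    fun G l v hl => by rw [G.smul, h.hom l _ hl]
  have r1 := lin_rt.comp lin_sg
  have r2 := lin_rt.comp lin_sg'
  have q1 := fun s => (lin_q7 s).comp lin_sg
  have q2 := fun s => (lin_q7 s).comp lin_sg'
  have f1 : sg (1, 0, 0) = (-2 : ℤ) • ((1, 0, 0) : V) := by decide
  have f2 : sg' (1, 0, 0) = (-2 : ℤ) • ((1, 0, 0) : V) := by decide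
  constructor
  · refine ⟨⟨fun l v hl => ?_, fun a y b => ?_, fun a y b => ?_, fun v => ?_⟩, fun v hv => ?_,
      ⟨N, fun v w => ?_⟩, ?_⟩
    · unfold T2
      rw [o lin_rt l v hl, o r1 l v hl, o r2 l v hl]
    · change T2 φ (fA (a, y, b)) = _
      unfold T2
      rw [sg_fA, sg'_fA, rt_fA, rt_fA, rt_fA, hB, hB, hB]
    · change T2 φ (fB (a, y, b)) = _
      unfold T2
      rw [sg_fB, sg'_fB, rt_fB, rt_fB, rt_fB, hA, hA, hA]
      ring
    · unfold T2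
      rw [sg_sg, sg'_sg, o lin_rt _ _ (by norm_num), o lin_rt _ _ (by norm_num)]
      ring
    · unfold T2
      rw [h.zero _ (ez_rt _ hv), h.zero _ (ez_rt _ (ez_sg _ hv)), h.zero _ (ez_rt _ (ez_sg' _ hv))]
      rfl
    · unfold T2
      have a1 := p lin_rt v w
      have a2 := p r1 v w
      have a3 := p r2 v w
      omega
    · unfold T2
      rw [f1, f2, o lin_rt _ _ (by norm_num)]
      omega
  · refine ⟨⟨fun l v hl => ?_, fun a y b => ?_, fun a y b => ?_, fun v => ?_⟩, fun v hv => ?_,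
      ⟨N, fun v w => ?_⟩, ?_⟩
    · unfold T7
      rw [o (lin_p7 1) l v hl, o (lin_p7 (-1)) l v hl, o (lin_q7 1) l v hl,
        o (lin_q7 (-1)) l v hl, o (q1 1) l v hl, o (q1 (-1)) l v hl, o (q2 1) l v hl,
        o (q2 (-1)) l v hl]
    · change T7 φ (fA (a, y, b)) = _
      unfold T7
      simp only [sg_fA, sg'_fA, p7_fA, q7_fA, hA, neg_neg]
      ring
    · change T7 φ (fB (a, y, b)) = _
      unfold T7
      simp only [sg_fB, sg'_fB, p7_fB, q7_fB, hB, neg_neg]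
      ring
    · unfold T7
      rw [sg_sg, sg'_sg, p7_sg, p7_sg, h.rot, h.rot, o (lin_q7 1) _ _ (by norm_num),
        o (lin_q7 1) _ _ (by norm_num), o (lin_q7 (-1)) _ _ (by norm_num),
        o (lin_q7 (-1)) _ _ (by norm_num)]
      ring
    · unfold T7
      rw [h.zero _ (ez_p7 _ hv).1, h.zero _ (ez_p7 _ hv).2, h.zero _ (ez_q7 _ hv).1,
        h.zero _ (ez_q7 _ hv).2, h.zero _ (ez_q7 _ (ez_sg _ hv)).1,
        h.zero _ (ez_q7 _ (ez_sg _ hv)).2, h.zero _ (ez_q7 _ (ez_sg' _ hv)).1,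
        h.zero _ (ez_q7 _ (ez_sg' _ hv)).2]
      rfl
    · unfold T7
      have a1 := p (lin_p7 1) v w
      have a2 := p (lin_p7 (-1)) v w
      have a3 := p (lin_q7 1) v w
      have a4 := p (lin_q7 (-1)) v w
      have a5 := p (q1 1) v w
      have a6 := p (q1 (-1)) v w
      have a7 := p (q2 1) v w
      have a8 := p (q2 (-1)) v w
      omega
    · unfold T7
      have g1 : p7 1 (1, 0, 0) = (7 : ℤ) • ((1, 0, 0) : V) := by decide
      have g2 : p7 (-1) (1, 0, 0) = (7 : ℤ) • ((1, 0, 0) : V) := by decide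
      rw [f1, f2, g1, g2, h.hom _ _ (by norm_num), o (lin_q7 1) _ _ (by norm_num),
        o (lin_q7 (-1)) _ _ (by norm_num)]
      have := h.fix
      omega

theorem sum_s1 (n : ℕ) (F : V → ℤ) : ∑ v ∈ Rp n, F (s1 v) = ∑ v ∈ Rp n, F v := by
  refine Finset.sum_nbij' s1 s2 ?_ ?_ ?_ ?_ (fun _ _ => rfl)
  · rintro ⟨a, y, b⟩ h
    rw [mem_Rp] at h
    obtain ⟨k, rfl⟩ := exk h.2
    rw [s1_eq, mem_Rp]
    refine ⟨?_, by omega⟩
    rw [← h.1]
    ring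
  · rintro ⟨a, y, b⟩ h
    rw [mem_Rp] at h
    obtain ⟨k, rfl⟩ := exk h.2
    rw [s2_eq, mem_Rp]
    refine ⟨?_, by omega⟩
    rw [← h.1]
    ring
  · rintro ⟨a, y, b⟩ h
    rw [mem_Rp] at h
    obtain ⟨k, rfl⟩ := exk h.2
    rw [s1_eq, s21]
  · rintro ⟨a, y, b⟩ h
    rw [mem_Rp] at h
    obtain ⟨k, rfl⟩ := exk h.2
    rw [s2_eq, s12]

theorem sum_s2 (n : ℕ) (F : V → ℤ) : ∑ v ∈ Rp n, F (s2 v) = ∑ v ∈ Rp n, F v := by
  rw [← sum_s1 n fun v => F (s2 v)]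
  refine Finset.sum_congr rfl ?_
  rintro ⟨a, y, b⟩ h
  rw [mem_Rp] at h
  obtain ⟨k, rfl⟩ := exk h.2
  rw [s1_eq, s21]

theorem rowORB3 : RowORB3 := by
  intro G n hr hf
  let F : V → ℤ := fun v => if 0 < v.2.2 ∧ v.2.1 ≤ v.2.2 then G v else 0
  let Z : V → ℤ := fun v => if v.2.1 = 0 ∧ v.2.2 = 0 then G v else 0
  have key : ∀ v ∈ Rp n, G v = Z v + F v + F (s1 v) + F (s2 v) := by
    rintro ⟨a, y, b⟩ h
    rw [mem_Rp] at h
    obtain ⟨k, rfl⟩ := exk h.2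
    have e1 : G (a, -(2 * b + k), k) = G (a, b + 2 * k, b) := by
      refine hr _ _ ?_
      ext <;> simp [sg] <;> ring
    have e2 : G (a, b + 2 * k, b) = G (a, b - k, -(b + k)) := by
      refine hr _ _ ?_
      ext <;> simp [sg] <;> ring
    rw [s1_eq, s2_eq]
    simp only [F, Z]
    rw [e1, ← e2]
    split_ifs <;> omega
  unfold THF
  rw [Finset.sum_congr rfl key, Finset.sum_add_distrib, Finset.sum_add_distrib,
    Finset.sum_add_distrib, sum_s1, sum_s2]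
  have hz : 3 ∣ ∑ v ∈ Rp n, Z v := by
    refine Finset.dvd_sum ?_
    rintro ⟨a, y, b⟩ h
    rw [mem_Rp] at h
    simp only [Z]
    split_ifs with h0
    · obtain ⟨rfl, rfl⟩ := h0
      exact hf a (by rw [← h.1]; ring)
    · exact dvd_zero _
  omega

end Pool.Agent.MP_5f72fe_nt.H50
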